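import Pool.Agent.X220.FP.Cor
import Pool.Agent.X220.FP.Alg

set_option autoImplicit false

/-! # Squarefree congruent numbers with few prime factors and prescribed fractional parts: preparations -/

namespace Pool.Agent.X220.CN

open Finset Polynomial
open Pool.Agent.X220.FP

/-- the parameters -/
def Par (B e t₀ : ℕ) : Prop := ((B = 36 ∧ e = 1) ∨ (B = 18 ∧ e = 2)) ∧ (t₀ = 1 ∨ t₀ = 3 ∨ t₀ = 5 ∨ t₀ = 7)

/-- the polynomials -/
noncomputable def f (B t₀ : ℤ) : Fin 3 → ℤ[X] :=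
  ![C 8 * X + C t₀, C (8 * B) * X + C (B * t₀ - 1), C (8 * B) * X + C (B * t₀ + 1)]

/-- their values -/
def G (B t₀ : ℤ) : Fin 3 → ℤ → ℤ :=
  ![fun n => 8 * n + t₀, fun n => (8 * B) * n + (B * t₀ - 1), fun n => (8 * B) * n + (B * t₀ + 1)]

/-- the values at natural numbers -/
def F (B t₀ : ℕ) : Fin 3 → ℕ → ℕ :=
  ![fun m => 8 * m + t₀, fun m => B * (8 * m + t₀) - 1, fun m => B * (8 * m + t₀) + 1]

lemma f_eval (B t₀ : ℤ) (i : Fin 3) (n : ℤ) : (f B t₀ i).eval n = G B t₀ i n := by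
  fin_cases i <;> simp [f, G]

lemma lin_irr' (a b : ℤ) (ha : a ≠ 0) (h : IsCoprime a b) : Irreducible (C a * X + C b : ℤ[X]) :=
  Pool.Agent.X55.Fam.lin_irr a b ha fun _ h1 h2 => h.isUnit_of_dvd' h1 h2

lemma cop8 {t₀ : ℤ} (ht : t₀ = 1 ∨ t₀ = 3 ∨ t₀ = 5 ∨ t₀ = 7) : IsCoprime (8 : ℤ) t₀ := by
  rcases ht with rfl | rfl | rfl | rfl
  · exact ⟨0, 1, by norm_num⟩
  · exact ⟨-1, 3, by norm_num⟩
  · exact ⟨2, -3, by norm_num⟩
  · exact ⟨1, -1, by norm_num⟩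

lemma copB {B e t₀ : ℕ} (hp : Par B e t₀) (σ : ℤ) (hσ : σ = 1 ∨ σ = -1) :
    IsCoprime (8 * (B : ℤ)) ((B : ℤ) * t₀ + σ) := by
  have h1 : ∃ w : ℤ, (B : ℤ) = 2 * w := by
    rcases hp.1 with ⟨h, -⟩ | ⟨h, -⟩
    · exact ⟨18, by rw [h]; norm_num⟩
    · exact ⟨9, by rw [h]; norm_num⟩
  obtain ⟨w, hw⟩ := h1
  have h2 : σ ^ 2 = 1 := by rcases hσ with h | h <;> rw [h] <;> norm_num
  -- `(B t + σ)(B t - σ) = B² t² - 1`
  have hB : IsCoprime (B : ℤ) ((B : ℤ) * t₀ + σ) := by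
    refine ⟨-(σ * t₀), σ, ?_⟩
    linear_combination h2
  have h8 : IsCoprime (2 : ℤ) ((B : ℤ) * t₀ + σ) := by
    refine ⟨-(σ * w * t₀), σ, ?_⟩
    rw [hw]
    linear_combination h2
  have h88 : IsCoprime (8 : ℤ) ((B : ℤ) * t₀ + σ) := by
    have := h8.pow_left (m := 3)
    norm_num at this
    exact this
  exact h88.mul_left hB

lemma f_deg (B t₀ : ℤ) (hB : B ≠ 0) (i : Fin 3) : (f B t₀ i).natDegree = 1 := by
  fin_cases i
  · show (C 8 * X + C t₀ : ℤ[X]).natDegree = 1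
    exact natDegree_linear (by norm_num)
  · show (C (8 * B) * X + C (B * t₀ - 1) : ℤ[X]).natDegree = 1
    exact natDegree_linear (by omega)
  · show (C (8 * B) * X + C (B * t₀ + 1) : ℤ[X]).natDegree = 1
    exact natDegree_linear (by omega)

lemma f_sys {B e t₀ : ℕ} (hp : Par B e t₀) : Pool.Agent.X55.Fam.Sys 3 (f B t₀) := by
  have hB0 : (B : ℤ) ≠ 0 := by
    rcases hp.1 with ⟨h, -⟩ | ⟨h, -⟩ <;> rw [h] <;> norm_num
  have hB18 : 18 ≤ (B : ℤ) := by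
    rcases hp.1 with ⟨h, -⟩ | ⟨h, -⟩ <;> rw [h] <;> norm_num
  have ht1 : 1 ≤ (t₀ : ℤ) := by
    rcases hp.2 with h | h | h | h <;> rw [h] <;> norm_num
  have hBt : 18 * (t₀ : ℤ) ≤ B * t₀ := by nlinarith
  refine Pool.Agent.X55.Fam.Sys.mk' ?_ ?_ ?_ 3 ?_ ?_
  · intro i
    fin_cases i
    · show Irreducible (C 8 * X + C (t₀ : ℤ) : ℤ[X])
      refine lin_irr' _ _ (by norm_num) (cop8 ?_)
      rcases hp.2 with h | h | h | h <;> rw [h] <;> norm_num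
    · show Irreducible (C (8 * (B : ℤ)) * X + C ((B : ℤ) * t₀ - 1) : ℤ[X])
      exact lin_irr' _ _ (by omega) (copB hp (-1) (Or.inr rfl))
    · show Irreducible (C (8 * (B : ℤ)) * X + C ((B : ℤ) * t₀ + 1) : ℤ[X])
      exact lin_irr' _ _ (by omega) (copB hp 1 (Or.inl rfl))
  · intro i
    rw [f_deg _ _ hB0]
    norm_num
  · intro i j hij
    refine Pool.Agent.X55.Fam.not_assoc 0 ?_
    rw [f_eval, f_eval]
    fin_cases i <;> fin_cases j <;>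
      first
      | exact absurd rfl hij
      | (simp only [G, Fin.isValue, Fin.mk_one, Fin.zero_eta, Fin.reduceFinMk, Matrix.cons_val_zero, Matrix.cons_val_one,
          Matrix.cons_val, mul_zero, zero_add]; omega)
  · simp [Fin.sum_univ_succ, f_deg _ _ hB0]
  · intro p hpp hp3
    have h3 : (3 : ℤ) ∣ B := by
      rcases hp.1 with ⟨h, -⟩ | ⟨h, -⟩ <;> rw [h] <;> norm_num
    have h2 : (2 : ℤ) ∣ B := by
      rcases hp.1 with ⟨h, -⟩ | ⟨h, -⟩ <;> rw [h] <;> norm_num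
    interval_cases p
    · exact absurd hpp (by norm_num)
    · exact absurd hpp (by norm_num)
    · refine ⟨0, fun i => ?_⟩
      rw [f_eval]
      obtain ⟨w, hw⟩ := h2
      have h4 : (B : ℤ) * t₀ = 2 * (w * t₀) := by rw [hw]; ring
      fin_cases i
      · show ¬ ((2 : ℕ) : ℤ) ∣ 8 * ((0 : ℕ) : ℤ) + t₀
        rcases hp.2 with h | h | h | h <;> rw [h] <;> norm_num
      · show ¬ ((2 : ℕ) : ℤ) ∣ (8 * (B : ℤ)) * ((0 : ℕ) : ℤ) + (B * t₀ - 1)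
        push_cast
        omega
      · show ¬ ((2 : ℕ) : ℤ) ∣ (8 * (B : ℤ)) * ((0 : ℕ) : ℤ) + (B * t₀ + 1)
        push_cast
        omega
    · obtain ⟨w, hw⟩ := h3
      by_cases ht : t₀ = 3
      · refine ⟨1, fun i => ?_⟩
        rw [f_eval]
        have h4 : (B : ℤ) * t₀ = 3 * (w * t₀) := by rw [hw]; ring
        fin_cases i
        · show ¬ ((3 : ℕ) : ℤ) ∣ 8 * ((1 : ℕ) : ℤ) + t₀
          rw [ht]
          norm_num
        · show ¬ ((3 : ℕ) : ℤ) ∣ (8 * (B : ℤ)) * ((1 : ℕ) : ℤ) + (B * t₀ - 1)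
          push_cast
          omega
        · show ¬ ((3 : ℕ) : ℤ) ∣ (8 * (B : ℤ)) * ((1 : ℕ) : ℤ) + (B * t₀ + 1)
          push_cast
          omega
      · refine ⟨0, fun i => ?_⟩
        rw [f_eval]
        have h4 : (B : ℤ) * t₀ = 3 * (w * t₀) := by rw [hw]; ring
        fin_cases i
        · show ¬ ((3 : ℕ) : ℤ) ∣ 8 * ((0 : ℕ) : ℤ) + t₀
          rcases hp.2 with h | h | h | h
          · rw [h]; norm_num
          · exact absurd h ht
          · rw [h]; norm_num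
          · rw [h]; norm_num
        · show ¬ ((3 : ℕ) : ℤ) ∣ (8 * (B : ℤ)) * ((0 : ℕ) : ℤ) + (B * t₀ - 1)
          push_cast
          omega
        · show ¬ ((3 : ℕ) : ℤ) ∣ (8 * (B : ℤ)) * ((0 : ℕ) : ℤ) + (B * t₀ + 1)
          push_cast
          omega

lemma hF {B e t₀ : ℕ} (hp : Par B e t₀) (i : Fin 3) (n : ℕ) : ((f B t₀ i).eval (n : ℤ)).natAbs = F B t₀ i n := by
  rw [f_eval]
  have hB18 : 18 ≤ B := by
    rcases hp.1 with ⟨h, -⟩ | ⟨h, -⟩ <;> rw [h] <;> norm_num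
  have ht1 : 1 ≤ t₀ := by
    rcases hp.2 with h | h | h | h <;> omega
  have h1 : 1 ≤ B * (8 * n + t₀) := Nat.mul_pos (by omega) (by omega)
  fin_cases i
  · show (8 * (n : ℤ) + t₀).natAbs = 8 * n + t₀
    omega
  · show ((8 * (B : ℤ)) * (n : ℤ) + (B * t₀ - 1)).natAbs = B * (8 * n + t₀) - 1
    have h2 : ((8 * (B : ℤ)) * (n : ℤ) + (B * t₀ - 1)) = ((B * (8 * n + t₀) - 1 : ℕ) : ℤ) := by
      push_cast [Nat.cast_sub h1]
      ring
    rw [h2, Int.natAbs_natCast]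
  · show ((8 * (B : ℤ)) * (n : ℤ) + (B * t₀ + 1)).natAbs = B * (8 * n + t₀) + 1
    have h2 : ((8 * (B : ℤ)) * (n : ℤ) + (B * t₀ + 1)) = ((B * (8 * n + t₀) + 1 : ℕ) : ℤ) := by
      push_cast
      ring
    rw [h2, Int.natAbs_natCast]

end Pool.Agent.X220.CN
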