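import Pool.Agent.X220.CN.Base

set_option autoImplicit false

/-! # Composition with a polynomial, counting of square divisors -/

namespace Pool.Agent.X220.CN

open Finset Polynomial
open Pool.Agent.X220.FP

lemma coeff_comp_top (Q g : ℝ[X]) (d k : ℕ) (hQ : Q.natDegree ≤ d) (hg : g.natDegree ≤ k) (hk : 1 ≤ k) :
    (Q.comp g).coeff (d * k) = Q.coeff d * (g.coeff k) ^ d := by
  rw [comp, eval₂_eq_sum_range' C (Nat.lt_succ_of_le hQ), sum_range_succ, coeff_add, coeff_C_mul,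
    coeff_pow_of_natDegree_le hg, finsetSum_coeff, Finset.sum_eq_zero, zero_add]
  intro i hi
  rw [mem_range] at hi
  have h1 : (g ^ i).coeff (d * k) = 0 := by
    refine coeff_eq_zero_of_natDegree_lt (lt_of_le_of_lt natDegree_pow_le ?_)
    calc i * g.natDegree ≤ i * k := Nat.mul_le_mul le_rfl hg
      _ < d * k := Nat.mul_lt_mul_of_pos_right hi hk
  rw [coeff_C_mul, h1, mul_zero]

lemma FT'_scale {s : ℕ} {c₀ : ℝ} {τ : ℕ} {α β : Fin s → ℝ} (h : FT' c₀ τ α) (L : ℕ) (hL : 1 ≤ L)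
    (hβ : ∀ i, β i = α i * L) : FT' (c₀ / (L : ℝ) ^ τ) τ β := by
  intro g hg a
  have hLr : (0 : ℝ) < L := by exact_mod_cast hL
  have h1 := h (fun i => L * g i) (by
    intro h0
    apply hg
    funext i
    have := congrFun h0 i
    simp only [Pi.zero_apply] at this
    rcases mul_eq_zero.1 this with h2 | h2
    · exact absurd h2 (by exact_mod_cast (by omega : L ≠ 0))
    · simpa using h2) a
  have e1 : ∑ i, |(((L : ℤ) * g i : ℤ) : ℝ)| = (L : ℝ) * ∑ i, |(g i : ℝ)| := by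
    rw [mul_sum]
    refine sum_congr rfl fun i _ => ?_
    push_cast
    rw [abs_mul, Nat.abs_cast]
  have e2 : ∑ i, (((L : ℤ) * g i : ℤ) : ℝ) * α i = ∑ i, g i * β i := by
    refine sum_congr rfl fun i _ => ?_
    rw [hβ]
    push_cast
    ring
  rw [e1, e2, mul_pow] at h1
  rw [div_le_iff₀ (by positivity)]
  calc c₀ ≤ _ := h1
    _ = _ := by ring

/-- the polynomial of the values `n` -/
noncomputable def gg (B e t₀ : ℕ) : ℝ[X] :=
  C (e : ℝ) * ((C 8 * X + C (t₀ : ℝ)) * ((C (8 * (B : ℝ)) * X + C ((B : ℝ) * t₀ - 1)) *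
    (C (8 * (B : ℝ)) * X + C ((B : ℝ) * t₀ + 1))))

/-- the values `n` -/
def NN (B e t₀ m : ℕ) : ℕ := e * ((8 * m + t₀) * ((B * (8 * m + t₀) - 1) * (B * (8 * m + t₀) + 1)))

lemma gg_eval {B e t₀ : ℕ} (hp : Par B e t₀) (m : ℕ) : (gg B e t₀).eval (m : ℝ) = (NN B e t₀ m : ℝ) := by
  have hB18 : 18 ≤ B := by
    rcases hp.1 with ⟨h, -⟩ | ⟨h, -⟩ <;> omega
  have ht1 : 1 ≤ t₀ := by
    rcases hp.2 with h | h | h | h <;> omega
  have h1 : 1 ≤ B * (8 * m + t₀) := Nat.mul_pos (by omega) (by omega)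
  unfold gg NN
  push_cast [Nat.cast_sub h1]
  simp only [eval_mul, eval_add, eval_C, eval_X]
  ring

lemma gg_deg (B e t₀ : ℕ) : (gg B e t₀).natDegree ≤ 3 := by
  unfold gg
  refine (natDegree_C_mul_le _ _).trans ?_
  refine natDegree_mul_le.trans ?_
  have h1 : ∀ a b : ℝ, (C a * X + C b : ℝ[X]).natDegree ≤ 1 := fun a b => natDegree_linear_le
  have h2 : ((C (8 * (B : ℝ)) * X + C ((B : ℝ) * t₀ - 1)) * (C (8 * (B : ℝ)) * X + C ((B : ℝ) * t₀ + 1)) : ℝ[X]).natDegree ≤ 2 :=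
    natDegree_mul_le.trans (add_le_add (h1 _ _) (h1 _ _))
  have := h1 8 (t₀ : ℝ)
  omega

lemma gg_coeff (B e t₀ : ℕ) : (gg B e t₀).coeff 3 = ((512 * e * B ^ 2 : ℕ) : ℝ) := by
  have h1 : ∀ a b : ℝ, (C a * X + C b : ℝ[X]).natDegree ≤ 1 := fun a b => natDegree_linear_le
  have h2 : ((C (8 * (B : ℝ)) * X + C ((B : ℝ) * t₀ - 1)) * (C (8 * (B : ℝ)) * X + C ((B : ℝ) * t₀ + 1)) : ℝ[X]).natDegree ≤ 2 :=
    natDegree_mul_le.trans (add_le_add (h1 _ _) (h1 _ _))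
  have h3 : ∀ a b : ℝ, (C a * X + C b : ℝ[X]).coeff 1 = a := fun a b => by simp [coeff_X, coeff_C]
  unfold gg
  rw [coeff_C_mul, show (3 : ℕ) = 1 + 2 from rfl, coeff_mul_add_eq_of_natDegree_le (h1 _ _) h2, h3,
    show (2 : ℕ) = 1 + 1 from rfl, coeff_mul_add_eq_of_natDegree_le (h1 _ _) (h1 _ _), h3, h3]
  push_cast
  ring

/-- pairwise congruent numbers in an interval -/
lemma card_cong (q M H : ℕ) (hq : 0 < q) (S : Finset ℕ) (hS : ∀ m ∈ S, M < m ∧ m ≤ M + H)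
    (hc : ∀ m ∈ S, ∀ m' ∈ S, m ≡ m' [MOD q]) : S.card ≤ H / q + 1 := by
  have h1 : S.card ≤ (range (H / q + 1)).card := by
    refine card_le_card_of_injOn (fun m => (m - (M + 1)) / q) ?_ ?_
    · intro m hm
      obtain ⟨h1, h2⟩ := hS m hm
      simp only [coe_range, Set.mem_Iio]
      refine Nat.lt_succ_of_le (Nat.div_le_div_right ?_)
      omega
    · intro m hm m' hm' h
      obtain ⟨h1, h2⟩ := hS m hm
      obtain ⟨h3, h4⟩ := hS m' hm'
      simp only at h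
      have h5 : m - (M + 1) ≡ m' - (M + 1) [MOD q] := by
        refine Nat.ModEq.add_right_cancel' (M + 1) ?_
        rw [Nat.sub_add_cancel (by omega), Nat.sub_add_cancel (by omega)]
        exact hc m hm m' hm'
      have h6 : m - (M + 1) = m' - (M + 1) := by
        rw [← Nat.div_add_mod (m - (M + 1)) q, ← Nat.div_add_mod (m' - (M + 1)) q, h, h5]
      omega
  rwa [card_range] at h1

open Classical in
/-- the integers for which a linear form has a large square divisor -/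
lemma bad_count (a b y M H : ℕ) (hy : 1 ≤ y) (ha : ∀ p : ℕ, p.Prime → y < p → p.Coprime a) (hb : 0 < b) :
    (((Ioc M (M + H)).filter (fun m => ∃ p : ℕ, p.Prime ∧ y < p ∧ p ^ 2 ∣ a * m + b)).card : ℝ) ≤
      2 * H / (y + 1) + Real.sqrt (a * (M + H) + b) := by
  set P := Nat.sqrt (a * (M + H) + b) with hP
  have h1 : (Ioc M (M + H)).filter (fun m => ∃ p : ℕ, p.Prime ∧ y < p ∧ p ^ 2 ∣ a * m + b) ⊆
      ((Ioo y (P + 1)).filter Nat.Prime).biUnion (fun p => (Ioc M (M + H)).filter (fun m => p ^ 2 ∣ a * m + b)) := by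
    intro m hm
    simp only [mem_filter, mem_Ioc, mem_biUnion, mem_Ioo] at hm ⊢
    obtain ⟨⟨h1, h2⟩, p, h3, h4, h5⟩ := hm
    refine ⟨p, ⟨⟨h4, ?_⟩, h3⟩, ⟨h1, h2⟩, h5⟩
    have h6 : p ^ 2 ≤ a * (M + H) + b := (Nat.le_of_dvd (by omega) h5).trans (by gcongr)
    rw [Nat.lt_succ_iff, hP, Nat.le_sqrt']
    exact h6
  have h2 : ∀ p ∈ (Ioo y (P + 1)).filter Nat.Prime,
      (((Ioc M (M + H)).filter (fun m => p ^ 2 ∣ a * m + b)).card : ℝ) ≤ H * ((p : ℝ) ^ 2)⁻¹ + 1 := by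
    intro p hp
    simp only [mem_filter, mem_Ioo] at hp
    have h3 := card_cong (p ^ 2) M H (by have := hp.2.pos; positivity)
      ((Ioc M (M + H)).filter (fun m => p ^ 2 ∣ a * m + b))
      (fun m hm => by simpa using (mem_filter.1 hm).1) (by
        intro m hm m' hm'
        have h4 := (mem_filter.1 hm).2
        have h5 := (mem_filter.1 hm').2
        have h6 : a * m + b ≡ a * m' + b [MOD p ^ 2] :=
          ((Nat.modEq_zero_iff_dvd.2 h4).trans (Nat.modEq_zero_iff_dvd.2 h5).symm)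
        have h7 : a * m ≡ a * m' [MOD p ^ 2] := Nat.ModEq.add_right_cancel' b h6
        exact Nat.ModEq.cancel_left_of_coprime (Nat.Coprime.pow_left 2 (ha p hp.2 hp.1.1)) h7)
    have h4 : (((Ioc M (M + H)).filter (fun m => p ^ 2 ∣ a * m + b)).card : ℝ) ≤ ((H / p ^ 2 + 1 : ℕ) : ℝ) := by
      exact_mod_cast h3
    refine h4.trans ?_
    push_cast
    have h5 : ((H / p ^ 2 : ℕ) : ℝ) ≤ (H : ℝ) / ((p ^ 2 : ℕ) : ℝ) := Nat.cast_div_le
    push_cast at h5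
    rw [div_eq_mul_inv] at h5
    linarith
  have h3 : (((Ioc M (M + H)).filter (fun m => ∃ p : ℕ, p.Prime ∧ y < p ∧ p ^ 2 ∣ a * m + b)).card : ℝ) ≤
      ∑ p ∈ (Ioo y (P + 1)).filter Nat.Prime, (H * ((p : ℝ) ^ 2)⁻¹ + 1) := by
    have h4 : (((Ioc M (M + H)).filter (fun m => ∃ p : ℕ, p.Prime ∧ y < p ∧ p ^ 2 ∣ a * m + b)).card : ℝ) ≤
      ((∑ p ∈ (Ioo y (P + 1)).filter Nat.Prime, ((Ioc M (M + H)).filter (fun m => p ^ 2 ∣ a * m + b)).card : ℕ) : ℝ) := by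
      exact_mod_cast (card_le_card h1).trans card_biUnion_le
    refine h4.trans ?_
    push_cast
    exact sum_le_sum h2
  have h4 : ∑ p ∈ (Ioo y (P + 1)).filter Nat.Prime, (H * ((p : ℝ) ^ 2)⁻¹ + 1) ≤
      ∑ p ∈ Ioo y (P + 1), (H * ((p : ℝ) ^ 2)⁻¹ + 1) :=
    sum_le_sum_of_subset_of_nonneg (filter_subset _ _) fun p _ _ => by positivity
  have h5 : ∑ p ∈ Ioo y (P + 1), (H * ((p : ℝ) ^ 2)⁻¹ + 1) ≤ H * (2 / (y + 1)) + P := by
    rw [sum_add_distrib, ← mul_sum]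
    have h6 := sum_Ioo_inv_sq_le (α := ℝ) y (P + 1)
    have h7 : (∑ _p ∈ Ioo y (P + 1), (1 : ℝ)) ≤ P := by
      rw [sum_const, Nat.card_Ioo, nsmul_eq_mul, mul_one]
      have : (P + 1 - y - 1 : ℕ) ≤ P := by omega
      exact_mod_cast this
    have h8 : (H : ℝ) * ∑ i ∈ Ioo y (P + 1), ((i : ℝ) ^ 2)⁻¹ ≤ H * (2 / (y + 1)) :=
      mul_le_mul_of_nonneg_left h6 (Nat.cast_nonneg _)
    linarith
  have h6 : (P : ℝ) ≤ Real.sqrt (a * (M + H) + b) := by
    have := Real.nat_sqrt_le_real_sqrt (a := a * (M + H) + b)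
    push_cast at this
    exact this
  have h7 : (H : ℝ) * (2 / (y + 1)) = 2 * H / (y + 1) := by ring
  linarith

end Pool.Agent.X220.CN
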