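import Pool.Agent.X220.CN.Main

set_option autoImplicit false

/-! # The congruent numbers -/

namespace Pool.Agent.X220.CN

open Finset Polynomial
open Pool.Agent.X220.FP
open Pool.Agent.X55.Fam

lemma par_facts {B e t₀ : ℕ} (hp : Par B e t₀) : 18 ≤ B ∧ 1 ≤ t₀ ∧ t₀ ≤ 7 ∧ 1 ≤ e ∧ e ≤ 2 ∧ 2 ∣ B ∧ t₀ % 2 = 1 := by
  rcases hp with ⟨⟨rfl, rfl⟩ | ⟨rfl, rfl⟩, rfl | rfl | rfl | rfl⟩ <;> norm_num

/-- the shape of the values -/
lemma NN_shape {B e t₀ : ℕ} (hp : Par B e t₀) (m : ℕ) : ∃ T x : ℕ, T = 8 * m + t₀ ∧ B * T = x + 1 ∧ 17 ≤ x ∧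
    T % 2 = 1 ∧ x % 2 = 1 ∧ NN B e t₀ m = e * (T * (x * (x + 2))) ∧ F B t₀ 0 m = T ∧ F B t₀ 1 m = x ∧ F B t₀ 2 m = x + 2 := by
  obtain ⟨h1, h2, h3, h4, h5, h6, h7⟩ := par_facts hp
  have hBT : 18 ≤ B * (8 * m + t₀) := by
    calc 18 = 18 * 1 := by norm_num
      _ ≤ B * (8 * m + t₀) := Nat.mul_le_mul h1 (by omega)
  have he : 2 ∣ B * (8 * m + t₀) := h6.mul_right _
  refine ⟨8 * m + t₀, B * (8 * m + t₀) - 1, rfl, by omega, by omega, by omega, by omega, ?_, rfl, rfl, ?_⟩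
  · unfold NN
    have : B * (8 * m + t₀) + 1 = (B * (8 * m + t₀) - 1) + 2 := by omega
    rw [this]
  · show B * (8 * m + t₀) + 1 = (B * (8 * m + t₀) - 1) + 2
    omega

lemma NN_facts {B e t₀ : ℕ} (hp : Par B e t₀) (m r : ℕ) (w : ℝ) (hg : ∀ i, Good r w (F B t₀ i m))
    (hs : ∀ i, Squarefree (F B t₀ i m)) : Squarefree (NN B e t₀ m) ∧
    (NN B e t₀ m).primeFactorsList.length ≤ 3 * r + 1 ∧ ∀ q : ℕ, q.Prime → q ≠ 2 → q ∣ NN B e t₀ m → w < q := by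
  obtain ⟨T, x, h1, h2, h3, h4, h5, h6, f0, f1, f2⟩ := NN_shape hp m
  obtain ⟨-, -, -, e1, e2, -, -⟩ := par_facts hp
  have s0 := hs 0
  have s1 := hs 1
  have s2 := hs 2
  have g0 := hg 0
  have g1 := hg 1
  have g2 := hg 2
  rw [f0] at s0 g0
  rw [f1] at s1 g1
  rw [f2] at s2 g2
  have c1 : Nat.Coprime x (x + 2) := by
    rw [Nat.coprime_self_add_right]
    exact Nat.coprime_two_right.2 (Nat.odd_iff.2 h5)
  have c2 : Nat.Coprime T (x * (x + 2)) := by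
    have d1 : T ∣ x + 1 := ⟨B, by rw [← h2]; ring⟩
    refine Nat.Coprime.mul_right ?_ ?_
    · exact Nat.Coprime.coprime_dvd_left d1 (by simp)
    · refine Nat.Coprime.coprime_dvd_left d1 ?_
      show Nat.Coprime (x + 1) (x + 1 + 1)
      simp
  have hodd : (T * (x * (x + 2))) % 2 = 1 := by
    have : (x + 2) % 2 = 1 := by omega
    rw [Nat.mul_mod, Nat.mul_mod x, h4, h5, this]
  have c3 : Nat.Coprime e (T * (x * (x + 2))) := by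
    rcases (by omega : e = 1 ∨ e = 2) with rfl | rfl
    · simp
    · exact (Nat.coprime_two_right.2 (Nat.odd_iff.2 hodd)).symm
  have hx0 : x ≠ 0 := by omega
  have hT0 : T ≠ 0 := by omega
  have hse : Squarefree e := by
    rcases (by omega : e = 1 ∨ e = 2) with rfl | rfl
    · exact squarefree_one
    · exact Nat.prime_two.squarefree
  have hle : e.primeFactorsList.length ≤ 1 := by
    rcases (by omega : e = 1 ∨ e = 2) with rfl | rfl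
    · simp
    · rw [Nat.primeFactorsList_prime Nat.prime_two]
      simp
  rw [h6]
  refine ⟨?_, ?_, ?_⟩
  · rw [Nat.squarefree_mul c3, Nat.squarefree_mul c2, Nat.squarefree_mul c1]
    exact ⟨hse, s0, s1, s2⟩
  · have l1 := (Nat.perm_primeFactorsList_mul hx0 (by omega : x + 2 ≠ 0)).length_eq
    have l2 := (Nat.perm_primeFactorsList_mul hT0 (by positivity : x * (x + 2) ≠ 0)).length_eq
    have l3 := (Nat.perm_primeFactorsList_mul (by omega : e ≠ 0) (by positivity : T * (x * (x + 2)) ≠ 0)).length_eq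
    rw [List.length_append] at l1 l2 l3
    rw [l3, l2, l1]
    have := g0.2.1
    have := g1.2.1
    have := g2.2.1
    omega
  · intro q hq hq2 hd
    rcases (hq.dvd_mul).1 hd with h | h
    · exfalso
      rcases (by omega : e = 1 ∨ e = 2) with rfl | rfl
      · exact hq.one_lt.ne' (Nat.dvd_one.1 h)
      · exact hq2 ((Nat.prime_dvd_prime_iff_eq hq Nat.prime_two).1 h)
    · rcases (hq.dvd_mul).1 h with h | h
      · exact g0.2.2 q hq h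
      · rcases (hq.dvd_mul).1 h with h | h
        · exact g1.2.2 q hq h
        · exact g2.2.2 q hq h

lemma NN_mono {B e t₀ : ℕ} (hp : Par B e t₀) : StrictMono (NN B e t₀) := by
  obtain ⟨h1, h2, h3, h4, h5, h6, h7⟩ := par_facts hp
  refine strictMono_nat_of_lt_succ fun m => ?_
  obtain ⟨T, x, a1, a2, a3, a4, a5, a6, -⟩ := NN_shape hp m
  obtain ⟨T', x', b1, b2, b3, b4, b5, b6, -⟩ := NN_shape hp (m + 1)
  rw [a6, b6]
  have c1 : T < T' := by omega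
  have c2 : x < x' := by
    have : B * T < B * T' := Nat.mul_lt_mul_of_pos_left c1 (by omega)
    omega
  have c3 : x * (x + 2) < x' * (x' + 2) := by nlinarith
  have c4 : T * (x * (x + 2)) < T' * (x' * (x' + 2)) := Nat.mul_lt_mul'' c1 c3
  exact Nat.mul_lt_mul_of_pos_left c4 (by omega)

lemma NN_bounds {B e t₀ : ℕ} (hp : Par B e t₀) (M m K : ℕ) (h1 : M < m) (h2 : m ≤ K) :
    512 * e * B ^ 2 * M ^ 3 < NN B e t₀ m ∧ NN B e t₀ m ≤ 512 * e * B ^ 2 * (K + 1) ^ 3 := by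
  obtain ⟨p1, p2, p3, p4, p5, p6, p7⟩ := par_facts hp
  obtain ⟨T, x, a1, a2, a3, a4, a5, a6, -⟩ := NN_shape hp m
  rw [a6]
  have hxx : x * (x + 2) + 1 = B ^ 2 * T ^ 2 := by
    have : B ^ 2 * T ^ 2 = (B * T) ^ 2 := by ring
    rw [this, a2]
    ring
  constructor
  · -- lower bound
    have c1 : 8 * M + 9 ≤ T := by omega
    have c2 : B ^ 2 * (8 * M + 8) ^ 2 ≤ x * (x + 2) := by
      have d1 : B ^ 2 * (8 * M + 9) ^ 2 ≤ B ^ 2 * T ^ 2 := by gcongr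
      have d2 : B ^ 2 * (8 * M + 8) ^ 2 + 1 ≤ B ^ 2 * (8 * M + 9) ^ 2 := by
        have : 1 ≤ B ^ 2 := Nat.one_le_pow _ _ (by omega)
        nlinarith [Nat.zero_le M, Nat.zero_le (B ^ 2 * M)]
      omega
    have c3 : (8 * M + 9) * (B ^ 2 * (8 * M + 8) ^ 2) ≤ T * (x * (x + 2)) := Nat.mul_le_mul c1 c2
    have c4 : B ^ 2 * (8 * M) ^ 3 < (8 * M + 9) * (B ^ 2 * (8 * M + 8) ^ 2) := by
      have e1 : (8 * M) ^ 3 < (8 * M + 9) * (8 * M + 8) ^ 2 := by nlinarith [Nat.zero_le M, Nat.zero_le (M ^ 2)]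
      calc B ^ 2 * (8 * M) ^ 3 < B ^ 2 * ((8 * M + 9) * (8 * M + 8) ^ 2) :=
            Nat.mul_lt_mul_of_pos_left e1 (by positivity)
        _ = _ := by ring
    calc 512 * e * B ^ 2 * M ^ 3 = e * (B ^ 2 * (8 * M) ^ 3) := by ring
      _ < e * (T * (x * (x + 2))) := Nat.mul_lt_mul_of_pos_left (lt_of_lt_of_le c4 c3) (by omega)
  · have c1 : T ≤ 8 * (K + 1) := by omega
    have c2 : x * (x + 2) ≤ B ^ 2 * (8 * (K + 1)) ^ 2 := by
      have d1 : B ^ 2 * T ^ 2 ≤ B ^ 2 * (8 * (K + 1)) ^ 2 := by gcongr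
      omega
    calc e * (T * (x * (x + 2))) ≤ e * ((8 * (K + 1)) * (B ^ 2 * (8 * (K + 1)) ^ 2)) :=
          Nat.mul_le_mul le_rfl (Nat.mul_le_mul c1 c2)
      _ = _ := by ring

/-- the counting theorem for the numbers `n` -/
theorem count {B e t₀ : ℕ} (hp : Par B e t₀) (s d τ : ℕ) (hd : 1 ≤ d) (c₀ : ℝ) (hc₀ : 0 < c₀) (η : ℝ) (hη : 0 < η) :
    ∃ (r : ℕ) (δ c : ℝ) (H₀ : ℕ), 0 < δ ∧ 0 < c ∧ ∀ H : ℕ, H₀ ≤ H → ∀ Q : Fin s → ℝ[X],
      (∀ i, (Q i).natDegree ≤ d) → FT' c₀ τ (fun i => (Q i).coeff d) →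
      ∀ u ρ : Fin s → ℝ, (∀ i, (H : ℝ) ^ (-δ) ≤ ρ i ∧ ρ i ≤ 1) → ∀ M : ℕ, (M : ℝ) + H ≤ (H : ℝ) ^ (2 - η) →
      c * (H * ∏ i, ρ i) / Real.log H ^ 3 ≤ (Set.ncard {n : ℕ | 512 * e * B ^ 2 * M ^ 3 < n ∧
        n ≤ 512 * e * B ^ 2 * (M + H + 1) ^ 3 ∧ (∃ m, n = NN B e t₀ m) ∧ Squarefree n ∧
        n.primeFactorsList.length ≤ r ∧ (∀ q : ℕ, q.Prime → q ≠ 2 → q ∣ n → (H : ℝ) ^ δ < q) ∧ InBox Q u ρ n} : ℝ) := by
  obtain ⟨r, δ, c, H₀, hδ, hc, h⟩ := main hp s d τ hd c₀ hc₀ η hη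
  refine ⟨3 * r + 1, δ, c, H₀, hδ, hc, ?_⟩
  intro H hH Q hQ hFT u ρ hρ M hM
  refine (h H hH Q hQ hFT u ρ hρ M hM).trans ?_
  have h1 : (Set.ncard {m : ℕ | M < m ∧ m ≤ M + H ∧ InBox Q u ρ (NN B e t₀ m) ∧
        (∀ i, Good r ((H : ℝ) ^ δ) (F B t₀ i m)) ∧ (∀ i, Squarefree (F B t₀ i m))}) ≤
      (Set.ncard {n : ℕ | 512 * e * B ^ 2 * M ^ 3 < n ∧
        n ≤ 512 * e * B ^ 2 * (M + H + 1) ^ 3 ∧ (∃ m, n = NN B e t₀ m) ∧ Squarefree n ∧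
        n.primeFactorsList.length ≤ 3 * r + 1 ∧ (∀ q : ℕ, q.Prime → q ≠ 2 → q ∣ n → (H : ℝ) ^ δ < q) ∧
        InBox Q u ρ n}) := by
    rw [← Set.ncard_image_of_injective _ (NN_mono hp).injective]
    refine Set.ncard_le_ncard ?_ ((Set.finite_Iic (512 * e * B ^ 2 * (M + H + 1) ^ 3)).subset fun n hn => hn.2.1)
    rintro _ ⟨m, ⟨m1, m2, m3, m4, m5⟩, rfl⟩
    obtain ⟨a1, a2⟩ := NN_bounds hp M m (M + H) m1 m2
    obtain ⟨b1, b2, b3⟩ := NN_facts hp m r _ m4 m5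
    exact ⟨a1, a2, ⟨m, rfl⟩, b1, b2, b3, m3⟩
  exact_mod_cast h1

/-- the identity behind the right triangle -/
lemma triangle {B e t₀ : ℕ} (hp : Par B e t₀) (m : ℕ) : ∃ S w : ℕ, 18 ≤ S ∧ 1 ≤ w ∧
    w ^ 2 * NN B e t₀ m + S = S ^ 3 ∧ (e = 1 → w = 6) ∧ (e = 2 → w = 3) := by
  obtain ⟨T, x, a1, a2, a3, a4, a5, a6, -⟩ := NN_shape hp m
  have key : ∀ w : ℕ, w ^ 2 * e = B → w ^ 2 * NN B e t₀ m + (x + 1) = (x + 1) ^ 3 := by
    intro w hw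
    rw [a6]
    have : w ^ 2 * (e * (T * (x * (x + 2)))) = (w ^ 2 * e * T) * (x * (x + 2)) := by ring
    rw [this, hw, a2]
    ring
  rcases hp.1 with ⟨h1, h2⟩ | ⟨h1, h2⟩
  · exact ⟨x + 1, 6, by omega, by norm_num, key 6 (by rw [h1, h2]; norm_num), fun _ => rfl, fun h => by omega⟩
  · exact ⟨x + 1, 3, by omega, by norm_num, key 3 (by rw [h1, h2]; norm_num), fun h => by omega, fun _ => rfl⟩

/-- the classes modulo `8` -/
lemma NN_mod {B e t₀ : ℕ} (hp : Par B e t₀) (m : ℕ) : (NN B e t₀ m + e * t₀) % 8 = 0 := by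
  obtain ⟨T, x, a1, a2, a3, a4, a5, a6, -⟩ := NN_shape hp m
  have h1 : NN B e t₀ m + e * T = e * B ^ 2 * T ^ 3 := by
    rw [a6]
    have hxx : x * (x + 2) + 1 = B ^ 2 * T ^ 2 := by
      have : B ^ 2 * T ^ 2 = (B * T) ^ 2 := by ring
      rw [this, a2]
      ring
    calc e * (T * (x * (x + 2))) + e * T = e * (T * (x * (x + 2) + 1)) := by ring
      _ = _ := by rw [hxx]; ring
  have h2 : 8 ∣ e * B ^ 2 * T ^ 3 := by
    rcases hp.1 with ⟨h1, h2⟩ | ⟨h1, h2⟩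
    · rw [h1, h2]
      exact Dvd.dvd.mul_right (by norm_num) _
    · rw [h1, h2]
      exact Dvd.dvd.mul_right (by norm_num) _
  rw [← h1, a1] at h2
  have h3 : NN B e t₀ m + e * (8 * m + t₀) = (NN B e t₀ m + e * t₀) + 8 * (e * m) := by ring
  omega

end Pool.Agent.X220.CN
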