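import Pool.Agent.X220.CN.Comp

set_option autoImplicit false

/-! # Squarefree almost prime values with prescribed fractional parts -/

namespace Pool.Agent.X220.CN

open Finset Polynomial
open Pool.Agent.X220.FP
open Pool.Agent.X55.Fam

lemma ev_log (κ c : ℝ) (hκ : 0 < κ) (hc : 0 < c) : ∃ H₀ : ℕ, ∀ H : ℕ, H₀ ≤ H → Real.log H ^ 3 ≤ c * (H : ℝ) ^ κ := by
  have h1 := (isLittleO_log_rpow_rpow_atTop 3 hκ).def hc
  have h2 := (tendsto_natCast_atTop_atTop (R := ℝ)).eventually (h1.and (Filter.eventually_ge_atTop (1 : ℝ)))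
  obtain ⟨H₀, h3⟩ := Filter.eventually_atTop.1 h2
  refine ⟨H₀, fun H hH => ?_⟩
  obtain ⟨h4, h5⟩ := h3 H hH
  have h6 : (0 : ℝ) ≤ Real.log H := Real.log_nonneg h5
  have h7 : (0 : ℝ) ≤ (H : ℝ) ^ κ := Real.rpow_nonneg (by linarith) _
  rw [Real.norm_of_nonneg (Real.rpow_nonneg h6 _), Real.norm_of_nonneg h7] at h4
  have h8 : Real.log (H : ℝ) ^ (3 : ℝ) = Real.log H ^ 3 := by
    rw [← Real.rpow_natCast]
    norm_num
  rwa [h8] at h4

lemma ev_pow' (κ K : ℝ) (hκ : 0 < κ) : ∃ H₀ : ℕ, ∀ H : ℕ, H₀ ≤ H → K ≤ (H : ℝ) ^ κ := by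
  have h2 := (tendsto_natCast_atTop_atTop (R := ℝ)).eventually
    ((tendsto_rpow_atTop hκ).eventually (Filter.eventually_ge_atTop K))
  exact Filter.eventually_atTop.1 h2

lemma cop_large {p : ℕ} (hp : p.Prime) (h : 3 < p) (B : ℕ) (hB : B = 36 ∨ B = 18) :
    p.Coprime 8 ∧ p.Coprime (8 * B) := by
  have h2 : p.Coprime 2 := (Nat.coprime_primes hp Nat.prime_two).2 (by omega)
  have h3 : p.Coprime 3 := (Nat.coprime_primes hp Nat.prime_three).2 (by omega)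
  have h8 : p.Coprime 8 := by
    have := Nat.Coprime.pow_right 3 h2
    norm_num at this
    exact this
  have h9 : p.Coprime 9 := by
    have := Nat.Coprime.pow_right 2 h3
    norm_num at this
    exact this
  refine ⟨h8, Nat.Coprime.mul_right h8 ?_⟩
  rcases hB with rfl | rfl
  · have := Nat.Coprime.mul_right (Nat.Coprime.pow_right 2 h2) h9
    norm_num at this
    exact this
  · have := Nat.Coprime.mul_right h2 h9
    norm_num at this
    exact this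

theorem main {B e t₀ : ℕ} (hp : Par B e t₀) (s d τ : ℕ) (hd : 1 ≤ d) (c₀ : ℝ) (hc₀ : 0 < c₀) (η : ℝ) (hη : 0 < η) :
    ∃ (r : ℕ) (δ c : ℝ) (H₀ : ℕ), 0 < δ ∧ 0 < c ∧ ∀ H : ℕ, H₀ ≤ H → ∀ Q : Fin s → ℝ[X],
      (∀ i, (Q i).natDegree ≤ d) → FT' c₀ τ (fun i => (Q i).coeff d) →
      ∀ u ρ : Fin s → ℝ, (∀ i, (H : ℝ) ^ (-δ) ≤ ρ i ∧ ρ i ≤ 1) → ∀ M : ℕ, (M : ℝ) + H ≤ (H : ℝ) ^ (2 - η) →
      c * (H * ∏ i, ρ i) / Real.log H ^ 3 ≤ (Set.ncard {m : ℕ | M < m ∧ m ≤ M + H ∧ InBox Q u ρ (NN B e t₀ m) ∧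
        (∀ i, Good r ((H : ℝ) ^ δ) (F B t₀ i m)) ∧ (∀ i, Squarefree (F B t₀ i m))} : ℝ) := by
  classical
  have hB : B = 36 ∨ B = 18 := by
    rcases hp.1 with ⟨h, -⟩ | ⟨h, -⟩
    · exact Or.inl h
    · exact Or.inr h
  have hB1 : 1 ≤ B := by omega
  have ht1 : 1 ≤ t₀ := by rcases hp.2 with h | h | h | h <;> omega
  have ht7 : t₀ ≤ 7 := by rcases hp.2 with h | h | h | h <;> omega
  have he1 : 1 ≤ e := by rcases hp.1 with ⟨-, h⟩ | ⟨-, h⟩ <;> omega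
  set L : ℕ := (512 * e * B ^ 2) ^ d with hLdef
  have hL : 1 ≤ L := Nat.one_le_iff_ne_zero.2 (by positivity)
  have hLr : (0 : ℝ) < L := by exact_mod_cast hL
  obtain ⟨r, δ₁, c₁, C₁, H₁, hδ₁, hc₁, -, h⟩ :=
    fp_both s (d * 3) τ (by omega) (c₀ / (L : ℝ) ^ τ) (by positivity) (f_sys hp) (F B t₀) (hF hp) 2
  set κ : ℝ := min (min δ₁ η) 1 / 4 with hκdef
  have hκ : 0 < κ := by
    have : 0 < min (min δ₁ η) 1 := by
      refine lt_min (lt_min hδ₁ hη) one_pos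
    positivity
  have hκ1 : 4 * κ ≤ δ₁ := by
    have : min (min δ₁ η) 1 ≤ δ₁ := (min_le_left _ _).trans (min_le_left _ _)
    linarith
  have hκ2 : 4 * κ ≤ η := by
    have : min (min δ₁ η) 1 ≤ η := (min_le_left _ _).trans (min_le_right _ _)
    linarith
  obtain ⟨H₂, hH₂⟩ := ev_log κ (c₁ / 170) hκ (by positivity)
  obtain ⟨H₃, hH₃⟩ := ev_pow' δ₁ 4 hδ₁
  have hs1 : (0 : ℝ) < (s : ℝ) + 1 := by positivity
  have hδ : 0 < κ / (s + 1) := by positivity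
  have hδκ : κ / (s + 1) ≤ κ := div_le_self hκ.le (by linarith [(Nat.cast_nonneg s : (0 : ℝ) ≤ s)])
  refine ⟨r, κ / (s + 1), c₁ / 2, max (max H₁ H₂) (max H₃ 3), hδ, by positivity, ?_⟩
  intro H hH Q hQ hFT u ρ hρ M hM
  have g1 : H₁ ≤ H := ((le_max_left _ _).trans (le_max_left _ _)).trans hH
  have g2 : H₂ ≤ H := ((le_max_right _ _).trans (le_max_left _ _)).trans hH
  have g3 : H₃ ≤ H := ((le_max_left _ _).trans (le_max_right _ _)).trans hH
  have g4 : 3 ≤ H := ((le_max_right _ _).trans (le_max_right _ _)).trans hH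
  have hH1 : (1 : ℝ) ≤ H := by exact_mod_cast (by omega : 1 ≤ H)
  have hH0 : (0 : ℝ) < H := by linarith
  have hlog : 0 < Real.log H := Real.log_pos (by exact_mod_cast (by omega : 1 < H))
  set y : ℕ := ⌊(H : ℝ) ^ δ₁⌋₊ with hy
  have hy4 : 4 ≤ y := Nat.le_floor (by exact_mod_cast hH₃ H g3)
  -- the polynomials
  have hQc : ∀ i, ((Q i).comp (gg B e t₀)).natDegree ≤ d * 3 := fun i =>
    natDegree_comp_le.trans (Nat.mul_le_mul (hQ i) (gg_deg B e t₀))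
  have hFTc : FT' (c₀ / (L : ℝ) ^ τ) τ (fun i => ((Q i).comp (gg B e t₀)).coeff (d * 3)) := by
    refine FT'_scale hFT L hL fun i => ?_
    show ((Q i).comp (gg B e t₀)).coeff (d * 3) = (Q i).coeff d * (L : ℝ)
    rw [coeff_comp_top _ _ d 3 (hQ i) (gg_deg B e t₀) (by norm_num), gg_coeff, hLdef]
    push_cast
    ring
  have hρ' : ∀ i, (H : ℝ) ^ (-δ₁) ≤ ρ i ∧ ρ i ≤ 1 := fun i =>
    ⟨(Real.rpow_le_rpow_of_exponent_le hH1 (by linarith)).trans (hρ i).1, (hρ i).2⟩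
  have hMH : M + H ≤ H ^ 2 := by
    have h1 : (M : ℝ) + H ≤ (H : ℝ) ^ (2 : ℝ) := hM.trans (Real.rpow_le_rpow_of_exponent_le hH1 (by linarith))
    have h2 : (H : ℝ) ^ (2 : ℝ) = (H : ℝ) ^ 2 := by
      rw [← Real.rpow_natCast]
      norm_num
    rw [h2] at h1
    exact_mod_cast h1
  have hlow := (h H g1 (fun i => (Q i).comp (gg B e t₀)) hQc hFTc u ρ hρ' M).1 hMH
  -- the sets
  set S : Set ℕ := {m : ℕ | M < m ∧ m ≤ M + H ∧ InBox (fun i => (Q i).comp (gg B e t₀)) u ρ m ∧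
    ∀ i, Good r ((H : ℝ) ^ δ₁) (F B t₀ i m)} with hS
  set T : Set ℕ := {m : ℕ | M < m ∧ m ≤ M + H ∧ InBox Q u ρ (NN B e t₀ m) ∧
    (∀ i, Good r ((H : ℝ) ^ (κ / (s + 1))) (F B t₀ i m)) ∧ (∀ i, Squarefree (F B t₀ i m))} with hT
  let bad : ℕ → ℕ → Finset ℕ := fun a b =>
    (Ioc M (M + H)).filter (fun m => ∃ p : ℕ, p.Prime ∧ y < p ∧ p ^ 2 ∣ a * m + b)
  have hTfin : T.Finite := (Set.finite_Iic (M + H)).subset fun m hm => hm.2.1
  have hsub : S ⊆ T ∪ ((bad 8 t₀ ∪ bad (8 * B) (B * t₀ - 1) ∪ bad (8 * B) (B * t₀ + 1) : Finset ℕ) : Set ℕ) := by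
    intro m hm
    obtain ⟨m1, m2, m3, m4⟩ := hm
    by_cases hsq : ∀ i, Squarefree (F B t₀ i m)
    · left
      refine ⟨m1, m2, ?_, ?_, hsq⟩
      · intro i
        have := m3 i
        rw [eval_comp, gg_eval hp] at this
        exact this
      · intro i
        obtain ⟨a1, a2, a3⟩ := m4 i
        refine ⟨a1, a2, fun q hq hd => lt_of_le_of_lt ?_ (a3 q hq hd)⟩
        exact Real.rpow_le_rpow_of_exponent_le hH1 (by linarith)
    · right
      push Not at hsq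
      obtain ⟨i, hi⟩ := hsq
      rw [Nat.squarefree_iff_prime_squarefree] at hi
      push Not at hi
      obtain ⟨p, hpp, hpd⟩ := hi
      have hyp : y < p := by
        have h1 := (m4 i).2.2 p hpp ((Dvd.intro _ rfl).trans hpd)
        have h2 : (y : ℝ) ≤ (H : ℝ) ^ δ₁ := Nat.floor_le (by positivity)
        exact_mod_cast lt_of_le_of_lt h2 h1
      rw [← pow_two] at hpd
      have hBT : 1 ≤ B * t₀ := Nat.mul_pos (by omega) (by omega)
      have hBT' : 1 ≤ B * (8 * m + t₀) := Nat.mul_pos (by omega) (by omega)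
      simp only [coe_union, Set.mem_union, mem_coe, bad, mem_filter, mem_Ioc]
      fin_cases i
      · exact Or.inl (Or.inl ⟨⟨m1, m2⟩, p, hpp, hyp, hpd⟩)
      · refine Or.inl (Or.inr ⟨⟨m1, m2⟩, p, hpp, hyp, ?_⟩)
        have h1 : 8 * B * m + (B * t₀ - 1) = B * (8 * m + t₀) - 1 := by
          have : B * (8 * m + t₀) = 8 * B * m + B * t₀ := by ring
          omega
        rw [h1]
        exact hpd
      · refine Or.inr ⟨⟨m1, m2⟩, p, hpp, hyp, ?_⟩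
        have h1 : 8 * B * m + (B * t₀ + 1) = B * (8 * m + t₀) + 1 := by ring
        rw [h1]
        exact hpd
  have hcard : (S.ncard : ℝ) ≤ T.ncard + ((bad 8 t₀).card + (bad (8 * B) (B * t₀ - 1)).card +
      (bad (8 * B) (B * t₀ + 1)).card) := by
    have h1 : S.ncard ≤ (T ∪ ((bad 8 t₀ ∪ bad (8 * B) (B * t₀ - 1) ∪ bad (8 * B) (B * t₀ + 1) : Finset ℕ) : Set ℕ)).ncard :=
      Set.ncard_le_ncard hsub (hTfin.union (Finset.finite_toSet _))
    have h2 := h1.trans (Set.ncard_union_le _ _)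
    rw [Set.ncard_coe_finset] at h2
    have h3 := (card_union_le (bad 8 t₀ ∪ bad (8 * B) (B * t₀ - 1)) (bad (8 * B) (B * t₀ + 1)))
    have h4 := (card_union_le (bad 8 t₀) (bad (8 * B) (B * t₀ - 1)))
    have h5 : S.ncard ≤ T.ncard + ((bad 8 t₀).card + (bad (8 * B) (B * t₀ - 1)).card +
      (bad (8 * B) (B * t₀ + 1)).card) := by omega
    exact_mod_cast h5
  -- the bound for the bad numbers
  have hκH : 0 < (H : ℝ) ^ (1 - 2 * κ) := Real.rpow_pos_of_pos hH0 _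
  have hbad : ∀ a b : ℕ, (a = 8 ∨ a = 8 * B) → 0 < b → b ≤ 300 → ((bad a b).card : ℝ) ≤ 27 * (H : ℝ) ^ (1 - 2 * κ) := by
    intro a b ha hb hb3
    have h1 := bad_count a b y M H (by omega) (by
      intro p hpp hyp
      obtain ⟨c1, c2⟩ := cop_large hpp (by omega) B hB
      rcases ha with rfl | rfl
      · exact c1
      · exact c2) hb
    have ha3 : (a : ℝ) ≤ 288 := by
      have : a ≤ 288 := by rcases ha with rfl | rfl <;> rcases hB with h | h <;> omega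
      exact_mod_cast this
    have h2 : 2 * (H : ℝ) / (y + 1) ≤ 2 * (H : ℝ) ^ (1 - 2 * κ) := by
      have h3 : (H : ℝ) ^ δ₁ ≤ y + 1 := (Nat.lt_floor_add_one _).le
      have h4 : 0 < (H : ℝ) ^ δ₁ := Real.rpow_pos_of_pos hH0 _
      calc 2 * (H : ℝ) / (y + 1) ≤ 2 * (H : ℝ) / (H : ℝ) ^ δ₁ := div_le_div_of_nonneg_left (by positivity) h4 h3
        _ = 2 * (H : ℝ) ^ (1 - δ₁) := by rw [Real.rpow_sub hH0, Real.rpow_one]; ring
        _ ≤ 2 * (H : ℝ) ^ (1 - 2 * κ) := by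
          have := Real.rpow_le_rpow_of_exponent_le hH1 (by linarith : 1 - δ₁ ≤ 1 - 2 * κ)
          linarith
    have h3 : Real.sqrt (a * (M + H) + b) ≤ 25 * (H : ℝ) ^ (1 - 2 * κ) := by
      rw [Real.sqrt_le_left (by positivity)]
      have h4 : (25 * (H : ℝ) ^ (1 - 2 * κ)) ^ 2 = 625 * (H : ℝ) ^ (2 - 4 * κ) := by
        rw [mul_pow, ← Real.rpow_natCast ((H : ℝ) ^ (1 - 2 * κ)) 2, ← Real.rpow_mul hH0.le]
        norm_num
        ring_nf
      rw [h4]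
      have h5 : (H : ℝ) ^ (2 - η) ≤ (H : ℝ) ^ (2 - 4 * κ) := Real.rpow_le_rpow_of_exponent_le hH1 (by linarith)
      have h6 : (b : ℝ) ≤ 300 := by exact_mod_cast hb3
      have h7 : (a : ℝ) * (M + H) ≤ 288 * (M + H) := mul_le_mul_of_nonneg_right ha3 (by positivity)
      have h8 : (1 : ℝ) ≤ M + H := by
        have : (0 : ℝ) ≤ M := Nat.cast_nonneg _
        linarith
      nlinarith
    linarith
  have hBT : 18 * t₀ ≤ B * t₀ := Nat.mul_le_mul (by omega) le_rfl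
  have hBT' : B * t₀ ≤ 36 * 7 := Nat.mul_le_mul (by omega) ht7
  have b1 := hbad 8 t₀ (Or.inl rfl) (by omega) (by omega)
  have b2 := hbad (8 * B) (B * t₀ - 1) (Or.inr rfl) (by omega) (by omega)
  have b3 := hbad (8 * B) (B * t₀ + 1) (Or.inr rfl) (by omega) (by omega)
  -- comparison
  have hprod : (H : ℝ) ^ (-κ) ≤ ∏ i, ρ i := by
    have h1 : ∏ _i : Fin s, (H : ℝ) ^ (-(κ / (s + 1))) ≤ ∏ i, ρ i :=
      prod_le_prod (fun _ _ => by positivity) fun i _ => (hρ i).1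
    refine le_trans ?_ h1
    rw [prod_const, card_univ, Fintype.card_fin, ← Real.rpow_natCast, ← Real.rpow_mul hH0.le]
    refine Real.rpow_le_rpow_of_exponent_le hH1 ?_
    have : κ / (s + 1) * s ≤ κ := by
      rw [div_mul_eq_mul_div, div_le_iff₀ hs1]
      nlinarith
    linarith
  have hN : 81 * (H : ℝ) ^ (1 - 2 * κ) ≤ c₁ / 2 * (H * ∏ i, ρ i) / Real.log H ^ 3 := by
    rw [le_div_iff₀ (by positivity)]
    have h1 := hH₂ H g2
    have h2 : (H : ℝ) * (H : ℝ) ^ (-κ) ≤ H * ∏ i, ρ i := mul_le_mul_of_nonneg_left hprod hH0.le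
    have h3 : (H : ℝ) * (H : ℝ) ^ (-κ) = (H : ℝ) ^ (1 - 2 * κ) * (H : ℝ) ^ κ := by
      rw [← Real.rpow_add hH0]
      nth_rewrite 1 [← Real.rpow_one (H : ℝ)]
      rw [← Real.rpow_add hH0]
      congr 1
      ring
    rw [h3] at h2
    have h4 : 0 < (H : ℝ) ^ κ := Real.rpow_pos_of_pos hH0 _
    calc 81 * (H : ℝ) ^ (1 - 2 * κ) * Real.log H ^ 3
        ≤ 81 * (H : ℝ) ^ (1 - 2 * κ) * (c₁ / 170 * (H : ℝ) ^ κ) :=
          mul_le_mul_of_nonneg_left h1 (by positivity)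
      _ = (81 / 170) * c₁ * ((H : ℝ) ^ (1 - 2 * κ) * (H : ℝ) ^ κ) := by ring
      _ ≤ (81 / 170) * c₁ * (H * ∏ i, ρ i) := mul_le_mul_of_nonneg_left h2 (by positivity)
      _ ≤ c₁ / 2 * (H * ∏ i, ρ i) := by
        have : 0 ≤ (H : ℝ) * ∏ i, ρ i := le_trans (by positivity) h2
        nlinarith
  have hfin : c₁ * (H * ∏ i, ρ i) / Real.log H ^ 3 = c₁ / 2 * (H * ∏ i, ρ i) / Real.log H ^ 3 +
      c₁ / 2 * (H * ∏ i, ρ i) / Real.log H ^ 3 := by ring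
  rw [hfin] at hlow
  linarith

end Pool.Agent.X220.CN
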